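import Pool.Agent.H13.Rips85

set_option autoImplicit false

namespace Pool.Agent.Results.MP_b9e9b1_co.Counter

open Pool.Agent.H13.Rips

theorem result :
    ¬ (∀ n r : ℕ, r ≤ n → ∀ A : Finset (Fin n → Bool), MaxDiam r A → Rigid A → A.card ≤ 2 ^ r) := by
  intro h
  have := h 8 6 (by norm_num) A85 rf85.maxDiam.1 rf85.maxDiam.2
  rw [card85] at this
  norm_num at this

end Pool.Agent.Results.MP_b9e9b1_co.Counter
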